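import Pool.Agent.Helper51.EA.Defs
import Pool.Agent.Helper5.RM.DEC

/-!
# Project EA, block B8: one point of large complexity, sharp constant

`SN = S_1 + O(√N)` outside a small event (`point_split`), `S_1 = ∑_p sg v_p` with `v_p = XX_p` for the primes `p` of `LI N B z 1`
(and `0` for the others), the quantity `(∑ ‖v‖² + ‖∑ v²‖)/2` is at most `(3/π² + ε) N` (`v_sharp`), and `az_dir`.
-/

set_option autoImplicit false

namespace Pool.Agent.Helper51.EA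

open Finset Pool.Agent.Helper5.RM Pool.Agent.Helper5.RS MeasureTheory ProbabilityTheory

/-- the elements of `LI N B z 1` are primes up to `N` -/
lemma LI_one33 {N B z l : ℕ} (hl : l ∈ LI N B z 1) : l.Prime ∧ l ∈ PP N := by
  unfold LI at hl
  rw [Finset.mem_filter] at hl
  obtain ⟨hLA, hz, hom⟩ := hl
  unfold LA at hLA
  rw [Finset.mem_filter, Finset.mem_Icc] at hLA
  obtain ⟨⟨h1, hN⟩, hsq, hBl, hlt⟩ := hLA
  unfold om at hom
  obtain ⟨p, hp⟩ := Finset.card_eq_one.1 hom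
  have hprod : ∏ p ∈ l.primeFactors, p = l := Nat.prod_primeFactors_of_squarefree hsq
  rw [hp, Finset.prod_singleton] at hprod
  have hpp : p.Prime := Nat.prime_of_mem_primeFactors (by rw [hp]; exact Finset.mem_singleton_self p)
  rw [hprod] at hpp
  refine ⟨hpp, ?_⟩
  unfold PP
  rw [Finset.mem_filter, Finset.mem_Icc]
  exact ⟨⟨h1, hN⟩, hpp⟩

lemma rf_prime33 (T : Finset ℕ) {p : ℕ} (hp : p.Prime) : rf T p = sg T p := by
  rw [rf_sqf hp.prime.squarefree, hp.primeFactors, wal, Finset.prod_singleton]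

/-- the constants -/
lemma consts33 (δ : ℝ) (hδ : 0 < δ) : ∃ (ε : ℝ) (M : ℕ), 0 < ε ∧ 3 ≤ M ∧
    (1 + 3 / 2 * δ) * (2 * (3 / Real.pi ^ 2 + ε)) ≤
      ((1 + 7 / 8 * δ) * Real.cos (Real.pi / M)) ^ 2 * (6 / Real.pi ^ 2) := by
  have hpi : 0 < Real.pi := Real.pi_pos
  set A : ℝ := 6 / Real.pi ^ 2 with hA
  have hA0 : 0 < A := by positivity
  set ρ : ℝ := (1 + 3 / 2 * δ) / (1 + 7 / 8 * δ) ^ 2 with hρ
  have h7 : 0 < (1 + 7 / 8 * δ) ^ 2 := by positivity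
  have hρ1 : ρ < 1 := by
    rw [hρ, div_lt_one h7]
    nlinarith
  have hlim : Filter.Tendsto (fun M : ℕ => Real.cos (Real.pi / M) ^ 2) Filter.atTop (nhds 1) := by
    have h1 : Filter.Tendsto (fun M : ℕ => Real.pi / (M : ℝ)) Filter.atTop (nhds 0) :=
      tendsto_const_div_atTop_nhds_zero_nat Real.pi
    have h2 := (Real.continuous_cos.tendsto 0).comp h1
    rw [Real.cos_zero] at h2
    have h3 := h2.pow 2
    rw [one_pow] at h3
    exact h3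
  obtain ⟨M, hM, hM3⟩ := ((hlim.eventually (lt_mem_nhds hρ1)).and (Filter.eventually_ge_atTop 3)).exists
  have hM' : (1 + 3 / 2 * δ) < (1 + 7 / 8 * δ) ^ 2 * Real.cos (Real.pi / M) ^ 2 := by
    rw [hρ, div_lt_iff₀ h7] at hM
    linarith
  refine ⟨((1 + 7 / 8 * δ) ^ 2 * Real.cos (Real.pi / M) ^ 2 - (1 + 3 / 2 * δ)) * A / (2 * (1 + 3 / 2 * δ)), M, ?_, hM3, ?_⟩
  · have : 0 < (1 + 7 / 8 * δ) ^ 2 * Real.cos (Real.pi / M) ^ 2 - (1 + 3 / 2 * δ) := by linarith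
    positivity
  · have h32 : 0 < 1 + 3 / 2 * δ := by positivity
    have h3 : 3 / Real.pi ^ 2 = A / 2 := by rw [hA]; ring
    rw [h3]
    apply le_of_eq
    field_simp
    ring

/-- `(1 + δ) tg N - 5 √N ≥ (1 + 7δ/8) tg N` for large `N` -/
lemma tg_large33 (δ : ℝ) (hδ : 0 < δ) : ∃ N0 : ℕ, ∀ N : ℕ, N0 ≤ N →
    5 * Real.sqrt N ≤ δ / 8 * tg N := by
  have hpi : 0 < Real.pi := Real.pi_pos
  have h1 : Filter.Tendsto (fun N : ℕ => Real.log (N : ℝ)) Filter.atTop Filter.atTop :=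
    Real.tendsto_log_atTop.comp tendsto_natCast_atTop_atTop
  obtain ⟨N0, hN0⟩ := Filter.eventually_atTop.1 (h1.eventually_ge_atTop ((40 / δ) ^ 2 / (6 / Real.pi ^ 2)))
  refine ⟨N0, fun N hN => ?_⟩
  have h2 := hN0 N hN
  have hA0 : 0 < 6 / Real.pi ^ 2 := by positivity
  rw [div_le_iff₀ hA0] at h2
  have h3 : Real.sqrt N * (40 / δ) ≤ tg N := by
    unfold tg
    apply Real.le_sqrt_of_sq_le
    rw [mul_pow, Real.sq_sqrt (Nat.cast_nonneg N)]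
    have hN' : (0 : ℝ) ≤ N := Nat.cast_nonneg N
    calc (N : ℝ) * (40 / δ) ^ 2 ≤ N * (Real.log N * (6 / Real.pi ^ 2)) :=
          mul_le_mul_of_nonneg_left h2 hN'
      _ = _ := by ring
  calc 5 * Real.sqrt N = δ / 8 * (Real.sqrt N * (40 / δ)) := by field_simp; ring
    _ ≤ _ := mul_le_mul_of_nonneg_left h3 (by positivity)

/-- large `N` -/
lemma large33 (κ δ : ℝ) (hκ : 0 < κ) (hδ : 0 < δ) (M : ℕ) : ∃ N0 : ℕ, 1 ≤ N0 ∧ ∀ N : ℕ, N0 ≤ N →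
    16 * LL N ^ 2 ≤ (N : ℝ) ^ (κ / 4) ∧ 2 * (M : ℝ) ≤ (N : ℝ) ^ (δ / 2) := by
  have hc : Filter.Tendsto (fun N : ℕ => (N : ℝ)) Filter.atTop Filter.atTop := tendsto_natCast_atTop_atTop
  have h1 : ∀ᶠ x : ℝ in Filter.atTop, 16 * (1 + Real.log x) ^ 2 ≤ x ^ (κ / 4) := by
    have h2 := (isLittleO_log_rpow_atTop (show 0 < κ / 16 by positivity))
    have h3 := h2.bound (show (0 : ℝ) < 1 by norm_num)
    have h4 := (tendsto_rpow_atTop (show 0 < κ / 16 by positivity)).eventually_ge_atTop 64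
    filter_upwards [h3, h4, Filter.eventually_ge_atTop 1] with x h5 h6 h7
    have hlog : 0 ≤ Real.log x := Real.log_nonneg h7
    rw [Real.norm_of_nonneg hlog, Real.norm_of_nonneg (by positivity), one_mul] at h5
    have h8 : x ^ (κ / 4) = (x ^ (κ / 16)) ^ 4 := by
      rw [← Real.rpow_natCast, ← Real.rpow_mul (by linarith)]
      congr 1
      push_cast
      ring
    rw [h8]
    set y := x ^ (κ / 16)
    have h9 : (1 + Real.log x) ^ 2 ≤ (2 * y) ^ 2 := by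
      apply pow_le_pow_left₀ (by linarith)
      linarith
    calc 16 * (1 + Real.log x) ^ 2 ≤ 16 * (2 * y) ^ 2 := by linarith
      _ = 64 * y ^ 2 := by ring
      _ ≤ y ^ 2 * y ^ 2 := by
          apply mul_le_mul_of_nonneg_right _ (by positivity)
          nlinarith
      _ = y ^ 4 := by ring
  have h2 : ∀ᶠ x : ℝ in Filter.atTop, 2 * (M : ℝ) ≤ x ^ (δ / 2) :=
    (tendsto_rpow_atTop (show 0 < δ / 2 by positivity)).eventually_ge_atTop _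
  obtain ⟨N0, hN0⟩ := Filter.eventually_atTop.1 (hc.eventually (h1.and h2))
  exact ⟨max N0 1, le_max_right _ _, fun N hN => hN0 N (le_trans (le_max_left _ _) hN)⟩

/-- B8 from B7 (`v_sharp`), B1 (`point_split`), B2 (`az_dir`). -/
theorem point_sharp_of
    (v_sharp : ∀ (κ ε : ℝ) (_ : 0 < κ) (_ : 0 < ε), ∃ N0 : ℕ, ∀ N : ℕ, N0 ≤ N → ∀ θ D : ℝ, Far N θ D →
      (N : ℝ) ^ κ ≤ D → D ≤ N → ∃ (B z k w I : ℕ) (η : ℝ), Par N D B z k w I η ∧
      pr (PP N) (fun T => (3 / Real.pi ^ 2 + ε) * N <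
        (∑ l ∈ LI N B z 1, ‖XX N θ l T‖ ^ 2 + ‖∑ l ∈ LI N B z 1, XX N θ l T ^ 2‖) / 2) ≤ 2 / D ^ 4)
    (point_split : ∀ (N : ℕ) (θ D : ℝ) (_ : Far N θ D) (B z k w I : ℕ) (η : ℝ) (_ : Par N D B z k w I η),
      pr (PP N) (fun T => 5 * Real.sqrt N < ‖SN N T θ - ∑ l ∈ LI N B z 1, (rf T l : ℂ) * XX N θ l T‖) ≤
        2 * (I : ℝ) ^ 2 * D ^ (-(5 / 2) : ℝ) + 1 / D ^ 4)
    (az_dir : ∀ (S : Finset ℕ) (v : ℕ → Finset ℕ → ℂ) (_ : ∀ p ∈ S, Pred p (v p)) (M : ℕ) (_ : 3 ≤ M) (t v0 : ℝ)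
      (_ : 0 ≤ t) (_ : 0 < v0),
      pr S (fun T => t < ‖∑ p ∈ S, (sg T p : ℂ) * v p T‖ ∧
        (∑ p ∈ S, ‖v p T‖ ^ 2 + ‖∑ p ∈ S, v p T ^ 2‖) / 2 ≤ v0) ≤
        2 * M * Real.exp (-(t * Real.cos (Real.pi / M)) ^ 2 / (2 * v0)))
    (κ δ : ℝ) (hκ : 0 < κ) (hδ : 0 < δ) : ∃ N0 : ℕ, ∀ N : ℕ, N0 ≤ N → ∀ θ D : ℝ, Far N θ D →
    (N : ℝ) ^ κ ≤ D → D ≤ N →
    pr (PP N) (fun T => (1 + δ) * tg N < ‖SN N T θ‖) ≤ D ^ (-(9 / 4) : ℝ) + (N : ℝ) ^ (-(1 + δ)) := by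
  obtain ⟨ε, M, hε, hM3, hcst⟩ := consts33 δ hδ
  obtain ⟨N1, hN1⟩ := v_sharp κ ε hκ hε
  obtain ⟨N2, hN2⟩ := tg_large33 δ hδ
  obtain ⟨N3, hN3, hN3'⟩ := large33 κ δ hκ hδ M
  refine ⟨max N1 (max N2 N3), fun N hN θ D hF hκD hDN => ?_⟩
  have hNN1 : N1 ≤ N := le_trans (le_max_left _ _) hN
  have hNN2 : N2 ≤ N := le_trans (le_trans (le_max_left _ _) (le_max_right _ _)) hN
  have hNN3 : N3 ≤ N := le_trans (le_trans (le_max_right _ _) (le_max_right _ _)) hN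
  obtain ⟨B, z, k, w, I, η, hP, hV⟩ := hN1 N hNN1 θ D hF hκD hDN
  have hS := point_split N θ D hF B z k w I η hP
  have h5 := hN2 N hNN2
  obtain ⟨hLL, hMN⟩ := hN3' N hNN3
  have hN0 : 1 ≤ N := le_trans hN3 hNN3
  have hNr : (1 : ℝ) ≤ N := by exact_mod_cast hN0
  have hNpos : (0 : ℝ) < N := by linarith
  have hpi : 0 < Real.pi := Real.pi_pos
  have hD4 : 4 ≤ D := hP.hD4
  have hD0 : 0 < D := by linarith
  have htg0 : 0 ≤ tg N := Real.sqrt_nonneg _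
  have htgsq : tg N ^ 2 = 6 / Real.pi ^ 2 * (N * Real.log N) := by
    unfold tg
    rw [Real.sq_sqrt]
    have := Real.log_nonneg hNr
    positivity
  classical
  -- the martingale
  set v : ℕ → Finset ℕ → ℂ := fun p T => if p ∈ LI N B z 1 then XX N θ p T else 0 with hv
  have hsub : LI N B z 1 ⊆ PP N := fun l hl => (LI_one33 hl).2
  have hpred : ∀ p ∈ PP N, Pred p (v p) := by
    intro p hp T
    simp only [hv]
    by_cases hpL : p ∈ LI N B z 1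
    · rw [if_pos hpL, if_pos hpL]
      have hpp := (LI_one33 hpL).1
      exact XX_pred N θ p p (by rw [hpp.primeFactors]; exact Finset.mem_singleton_self p) T
    · rw [if_neg hpL, if_neg hpL]
  have hsum1 : ∀ T, ∑ p ∈ PP N, (sg T p : ℂ) * v p T = ∑ l ∈ LI N B z 1, (rf T l : ℂ) * XX N θ l T := by
    intro T
    rw [← Finset.sum_subset hsub]
    · refine Finset.sum_congr rfl fun l hl => ?_
      simp only [hv]
      rw [if_pos hl, rf_prime33 T (LI_one33 hl).1]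
    · intro p _ hp
      simp only [hv]
      rw [if_neg hp, mul_zero]
  have hsum2 : ∀ T, ∑ p ∈ PP N, ‖v p T‖ ^ 2 = ∑ l ∈ LI N B z 1, ‖XX N θ l T‖ ^ 2 := by
    intro T
    rw [← Finset.sum_subset hsub]
    · refine Finset.sum_congr rfl fun l hl => ?_
      simp only [hv]
      rw [if_pos hl]
    · intro p _ hp
      simp only [hv]
      rw [if_neg hp, norm_zero]
      norm_num
  have hsum3 : ∀ T, ∑ p ∈ PP N, v p T ^ 2 = ∑ l ∈ LI N B z 1, XX N θ l T ^ 2 := by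
    intro T
    rw [← Finset.sum_subset hsub]
    · refine Finset.sum_congr rfl fun l hl => ?_
      simp only [hv]
      rw [if_pos hl]
    · intro p _ hp
      simp only [hv]
      rw [if_neg hp]
      norm_num
  set v0 : ℝ := (3 / Real.pi ^ 2 + ε) * N with hv0
  have hv0pos : 0 < v0 := by positivity
  set t : ℝ := (1 + 7 / 8 * δ) * tg N with ht
  have ht0 : 0 ≤ t := by positivity
  have hAz := az_dir (PP N) v hpred M hM3 t v0 ht0 hv0pos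
  simp only [hsum1, hsum2, hsum3] at hAz
  -- the exponent
  have hexp : Real.exp (-(t * Real.cos (Real.pi / M)) ^ 2 / (2 * v0)) ≤ (N : ℝ) ^ (-(1 + 3 / 2 * δ)) := by
    rw [Real.rpow_def_of_pos hNpos]
    apply Real.exp_le_exp.2
    rw [neg_div, mul_neg, neg_le_neg_iff, le_div_iff₀ (by positivity)]
    have hlog := Real.log_nonneg hNr
    calc Real.log N * (1 + 3 / 2 * δ) * (2 * v0)
        = ((1 + 3 / 2 * δ) * (2 * (3 / Real.pi ^ 2 + ε))) * (N * Real.log N) := by rw [hv0]; ring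
      _ ≤ (((1 + 7 / 8 * δ) * Real.cos (Real.pi / M)) ^ 2 * (6 / Real.pi ^ 2)) * (N * Real.log N) :=
          mul_le_mul_of_nonneg_right hcst (by positivity)
      _ = ((1 + 7 / 8 * δ) * Real.cos (Real.pi / M)) ^ 2 * (6 / Real.pi ^ 2 * (N * Real.log N)) := by ring
      _ = ((1 + 7 / 8 * δ) * Real.cos (Real.pi / M)) ^ 2 * tg N ^ 2 := by rw [htgsq]
      _ = (t * Real.cos (Real.pi / M)) ^ 2 := by rw [ht]; ring
  have hAz2 : pr (PP N) (fun T => t < ‖∑ l ∈ LI N B z 1, (rf T l : ℂ) * XX N θ l T‖ ∧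
      (∑ l ∈ LI N B z 1, ‖XX N θ l T‖ ^ 2 + ‖∑ l ∈ LI N B z 1, XX N θ l T ^ 2‖) / 2 ≤ v0) ≤
      (N : ℝ) ^ (-(1 + δ)) := by
    refine hAz.trans ?_
    calc 2 * (M : ℝ) * Real.exp (-(t * Real.cos (Real.pi / M)) ^ 2 / (2 * v0))
        ≤ (N : ℝ) ^ (δ / 2) * (N : ℝ) ^ (-(1 + 3 / 2 * δ)) :=
          mul_le_mul hMN hexp (Real.exp_nonneg _) (by positivity)
      _ = (N : ℝ) ^ (-(1 + δ)) := by
          rw [← Real.rpow_add hNpos]
          congr 1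
          ring
  -- union bound
  have hun : pr (PP N) (fun T => (1 + δ) * tg N < ‖SN N T θ‖) ≤
      pr (PP N) (fun T => 5 * Real.sqrt N < ‖SN N T θ - ∑ l ∈ LI N B z 1, (rf T l : ℂ) * XX N θ l T‖) +
      (pr (PP N) (fun T => v0 <
        (∑ l ∈ LI N B z 1, ‖XX N θ l T‖ ^ 2 + ‖∑ l ∈ LI N B z 1, XX N θ l T ^ 2‖) / 2) +
      pr (PP N) (fun T => t < ‖∑ l ∈ LI N B z 1, (rf T l : ℂ) * XX N θ l T‖ ∧
        (∑ l ∈ LI N B z 1, ‖XX N θ l T‖ ^ 2 + ‖∑ l ∈ LI N B z 1, XX N θ l T ^ 2‖) / 2 ≤ v0)) := by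
    refine (pr_le_add (Q := fun T => 5 * Real.sqrt N < ‖SN N T θ - ∑ l ∈ LI N B z 1, (rf T l : ℂ) * XX N θ l T‖)
      (R := fun T => v0 < (∑ l ∈ LI N B z 1, ‖XX N θ l T‖ ^ 2 + ‖∑ l ∈ LI N B z 1, XX N θ l T ^ 2‖) / 2 ∨
        (t < ‖∑ l ∈ LI N B z 1, (rf T l : ℂ) * XX N θ l T‖ ∧
        (∑ l ∈ LI N B z 1, ‖XX N θ l T‖ ^ 2 + ‖∑ l ∈ LI N B z 1, XX N θ l T ^ 2‖) / 2 ≤ v0)) ?_).trans ?_
    · intro T _ hT
      by_cases h1 : 5 * Real.sqrt N < ‖SN N T θ - ∑ l ∈ LI N B z 1, (rf T l : ℂ) * XX N θ l T‖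
      · exact Or.inl h1
      · right
        rw [not_lt] at h1
        by_cases h2 : v0 < (∑ l ∈ LI N B z 1, ‖XX N θ l T‖ ^ 2 + ‖∑ l ∈ LI N B z 1, XX N θ l T ^ 2‖) / 2
        · exact Or.inl h2
        · right
          rw [not_lt] at h2
          refine ⟨?_, h2⟩
          have h3 : ‖SN N T θ‖ ≤ ‖SN N T θ - ∑ l ∈ LI N B z 1, (rf T l : ℂ) * XX N θ l T‖ +
              ‖∑ l ∈ LI N B z 1, (rf T l : ℂ) * XX N θ l T‖ := by
            have := norm_add_le (SN N T θ - ∑ l ∈ LI N B z 1, (rf T l : ℂ) * XX N θ l T)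
              (∑ l ∈ LI N B z 1, (rf T l : ℂ) * XX N θ l T)
            rwa [sub_add_cancel] at this
          rw [ht]
          linarith
    · gcongr
      exact pr_or _ _ _
  -- the numbers
  have hI2 : 2 * (I : ℝ) ^ 2 * D ^ (-(5 / 2) : ℝ) ≤ 1 / 2 * D ^ (-(9 / 4) : ℝ) := by
    have h1 : (I : ℝ) ^ 2 ≤ (2 * LL N) ^ 2 := pow_le_pow_left₀ (Nat.cast_nonneg I) hP.hIL 2
    have h2 : 16 * LL N ^ 2 ≤ D ^ (1 / 4 : ℝ) := by
      refine hLL.trans ?_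
      have h3 : (N : ℝ) ^ (κ / 4) = ((N : ℝ) ^ κ) ^ (1 / 4 : ℝ) := by
        rw [← Real.rpow_mul hNpos.le]
        congr 1
        ring
      rw [h3]
      exact Real.rpow_le_rpow (by positivity) hκD (by norm_num)
    have h4 : D ^ (-(9 / 4) : ℝ) = D ^ (1 / 4 : ℝ) * D ^ (-(5 / 2) : ℝ) := by
      rw [← Real.rpow_add hD0]
      norm_num
    rw [h4]
    have h5' : 0 < D ^ (-(5 / 2) : ℝ) := Real.rpow_pos_of_pos hD0 _
    have h6 : 2 * (I : ℝ) ^ 2 ≤ 1 / 2 * D ^ (1 / 4 : ℝ) := by nlinarith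
    calc 2 * (I : ℝ) ^ 2 * D ^ (-(5 / 2) : ℝ) ≤ (1 / 2 * D ^ (1 / 4 : ℝ)) * D ^ (-(5 / 2) : ℝ) :=
          mul_le_mul_of_nonneg_right h6 h5'.le
      _ = _ := by ring
  have hD3 : 1 / D ^ 4 + 2 / D ^ 4 ≤ 1 / 2 * D ^ (-(9 / 4) : ℝ) := by
    have h1 : (6 : ℝ) ≤ D ^ (7 / 4 : ℝ) := by
      have h2 : (4 : ℝ) ^ (7 / 4 : ℝ) ≤ D ^ (7 / 4 : ℝ) := Real.rpow_le_rpow (by norm_num) hD4 (by norm_num)
      refine le_trans ?_ h2
      have h3 : (4 : ℝ) ^ (3 / 2 : ℝ) ≤ (4 : ℝ) ^ (7 / 4 : ℝ) :=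
        Real.rpow_le_rpow_of_exponent_le (by norm_num) (by norm_num)
      refine le_trans ?_ h3
      have h4 : (4 : ℝ) ^ (3 / 2 : ℝ) = 8 := by
        rw [show (4 : ℝ) = 2 ^ (2 : ℝ) by norm_num, ← Real.rpow_mul (by norm_num)]
        norm_num
      rw [h4]; norm_num
    have h2 : D ^ (-(9 / 4) : ℝ) = D ^ (7 / 4 : ℝ) / D ^ 4 := by
      rw [← Real.rpow_natCast D 4, ← Real.rpow_sub hD0]
      norm_num
    rw [h2]
    have h3 : 0 < D ^ 4 := by positivity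
    rw [← add_div, ← mul_div_assoc]
    apply div_le_div_of_nonneg_right _ h3.le
    linarith
  calc pr (PP N) (fun T => (1 + δ) * tg N < ‖SN N T θ‖)
      ≤ (2 * (I : ℝ) ^ 2 * D ^ (-(5 / 2) : ℝ) + 1 / D ^ 4) + (2 / D ^ 4 + (N : ℝ) ^ (-(1 + δ))) :=
        hun.trans (add_le_add hS (add_le_add hV hAz2))
    _ ≤ _ := by linarith

end Pool.Agent.Helper51.EA
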