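import Pool.Agent.Helper11.EA3.Defs3
import Pool.Agent.Helper5.RM.LG4
import Pool.Agent.Helper5.RM.DL

/-!
# Project EA, part 3, block V2b, part (b): the double sum of `mn a (j g α')`
-/

set_option autoImplicit false

namespace Pool.Agent.Helper51.EA

open Finset Pool.Agent.Helper5.RM Pool.Agent.Helper5.RS

/-- the double sum in terms of the divisor function -/
private lemma dbl_le (G H : ℕ) (F : ℕ → ℝ) (hF : ∀ i, 0 ≤ F i) :
    ∑ g ∈ Icc 1 G, ∑ j ∈ Ico 1 H, F (j * g) ≤ ∑ i ∈ Icc 1 (G * H), (i.divisors.card : ℝ) * F i := by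
  classical
  rw [← sum_product' (s := Icc 1 G) (t := Ico 1 H) (f := fun g j => F (j * g))]
  have hmaps : ∀ x ∈ Icc 1 G ×ˢ Ico 1 H, x.2 * x.1 ∈ Icc 1 (G * H) := by
    intro x hx
    rw [mem_product, mem_Icc, mem_Ico] at hx
    rw [mem_Icc]
    constructor
    · exact Nat.mul_pos hx.2.1 hx.1.1
    · calc x.2 * x.1 ≤ H * G := Nat.mul_le_mul hx.2.2.le hx.1.2
        _ = G * H := Nat.mul_comm _ _
  rw [← sum_fiberwise_of_maps_to (g := fun x : ℕ × ℕ => x.2 * x.1) hmaps]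
  refine sum_le_sum fun i hi => ?_
  rw [mem_Icc] at hi
  have h1 : ∑ x ∈ (Icc 1 G ×ˢ Ico 1 H).filter (fun x => x.2 * x.1 = i), F (x.2 * x.1) =
      (((Icc 1 G ×ˢ Ico 1 H).filter (fun x => x.2 * x.1 = i)).card : ℝ) * F i := by
    rw [← nsmul_eq_mul, ← sum_const]
    refine sum_congr rfl fun x hx => ?_
    rw [(mem_filter.mp hx).2]
  rw [h1]
  apply mul_le_mul_of_nonneg_right _ (hF i)
  have h2 : ((Icc 1 G ×ˢ Ico 1 H).filter (fun x => x.2 * x.1 = i)).card ≤ i.divisors.card := by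
    apply card_le_card_of_injOn (fun x => x.1)
    · intro x hx
      have hx' := (mem_filter.mp hx).2
      simp only [coe_filter, mem_coe, Nat.mem_divisors]
      exact ⟨⟨x.2, by rw [← hx']; ring⟩, by omega⟩
    · intro x hx y hy hxy
      have hx' := mem_filter.mp hx
      have hy' := mem_filter.mp hy
      have hxy' : x.1 = y.1 := hxy
      have hx1 := (mem_product.mp hx'.1).1
      rw [mem_Icc] at hx1
      have h3 : x.2 * x.1 = y.2 * x.1 := by
        rw [hx'.2, hxy', hy'.2]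
      have h4 : x.2 = y.2 := Nat.eq_of_mul_eq_mul_right hx1.1 h3
      exact Prod.ext hxy' h4
  exact_mod_cast h2

theorem div_two33 : ∃ C : ℝ, 1 ≤ C ∧ ∀ (N : ℕ) (α' D : ℝ) (B H a : ℕ), D ≤ N → Far N α' D → 128 * LL N ≤ B →
    (B : ℝ) ≤ D → B ≤ H → B * H ≤ N → B ≤ a → a ≤ N / H →
    ∑ g ∈ Icc 1 (N / H / a), ∑ j ∈ Ico 1 H, mn a (j * (g * α')) ≤
      C * LL N ^ 3 / Real.sqrt B * (H * (N / H : ℕ)) := by
  refine ⟨7, by norm_num, ?_⟩
  intro N α' D B H a hDN hF hBL hBD hBH hBHN hBa haY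
  have hL1 : 1 ≤ LL N := by
    unfold LL
    have : 0 ≤ Real.log N := Real.log_natCast_nonneg N
    linarith
  have hB128 : (128 : ℝ) ≤ B := by linarith
  have hB1 : 1 ≤ B := by exact_mod_cast (by linarith : (1 : ℝ) ≤ B)
  have hH1 : 1 ≤ H := hB1.trans hBH
  have ha1 : 1 ≤ a := hB1.trans hBa
  set Y := N / H with hY
  have hY1 : 1 ≤ Y := ha1.trans haY
  set G := Y / a with hG
  set J := G * H with hJ
  have hB0 : (0 : ℝ) < B := by linarith
  have hH0 : (0 : ℝ) < H := by exact_mod_cast hH1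
  have ha0 : (0 : ℝ) < a := by exact_mod_cast ha1
  have hY0 : (0 : ℝ) < Y := by exact_mod_cast hY1
  have hD0 : 0 < D := by linarith
  have hBar : (B : ℝ) ≤ a := by exact_mod_cast hBa
  have haYr : (a : ℝ) ≤ Y := by exact_mod_cast haY
  have hBHr : (B : ℝ) ≤ H := by exact_mod_cast hBH
  have hG1 : 1 ≤ G := (Nat.one_le_div_iff (by omega)).mpr haY
  have hJ1 : 1 ≤ J := Nat.mul_pos hG1 hH1
  have hGle : (G : ℝ) ≤ Y / a := Nat.cast_div_le
  have hJle : (J : ℝ) ≤ H * Y / a := by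
    rw [hJ]
    push_cast
    calc (G : ℝ) * H ≤ Y / a * H := by gcongr
      _ = H * Y / a := by ring
  have hJN : J ≤ N := by
    calc J = G * H := rfl
      _ ≤ Y * H := Nat.mul_le_mul_right _ (Nat.div_le_self _ _)
      _ ≤ N := Nat.div_mul_le_self _ _
  have hN2 : (N : ℝ) ≤ 2 * (H * Y) := by
    have h1 : N < H * (Y + 1) := by
      rw [hY]
      exact Nat.lt_mul_div_succ N (by omega)
    have h2 : (N : ℝ) < H * (Y + 1) := by exact_mod_cast h1
    have h3 : (1 : ℝ) ≤ Y := by exact_mod_cast hY1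
    nlinarith
  -- Dirichlet sum
  have hdl := dl N α' D (by linarith) hDN hF a ha0.le J
  have hsum : ∑ i ∈ Icc 1 J, mn a (i * α') ≤ 40 * LL N * (H * Y / B) := by
    refine hdl.trans ?_
    have e1 : (N : ℝ) / D ≤ 2 * (H * Y / B) := by
      calc (N : ℝ) / D ≤ 2 * (H * Y) / D := by gcongr
        _ ≤ 2 * (H * Y) / B := by gcongr
        _ = 2 * (H * Y / B) := by ring
    have e2 : (J : ℝ) ≤ H * Y / B := hJle.trans (by gcongr)
    have e3 : (a : ℝ) ≤ H * Y / B := by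
      rw [le_div_iff₀ hB0]
      nlinarith
    have e4 : (J : ℝ) * a / D ≤ H * Y / B := by
      calc (J : ℝ) * a / D ≤ (H * Y / a) * a / D := by gcongr
        _ = H * Y / D := by field_simp
        _ ≤ H * Y / B := by gcongr
    have e5 : (N : ℝ) / D + J + a + J * a / D ≤ 5 * (H * Y / B) := by linarith
    calc 8 * LL N * (N / D + J + a + J * a / D) ≤ 8 * LL N * (5 * (H * Y / B)) := by gcongr
      _ = 40 * LL N * (H * Y / B) := by ring
  -- divisors
  have hdiv := divisor_sq J hJ1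
  have hlogJ : 1 + Real.log J ≤ LL N := by
    unfold LL
    have : Real.log J ≤ Real.log N := Real.log_le_log (by exact_mod_cast hJ1) (by exact_mod_cast hJN)
    linarith
  have hlogJ0 : 0 ≤ 1 + Real.log J := by
    have : 0 ≤ Real.log J := Real.log_natCast_nonneg J
    linarith
  have hF0 : ∀ i : ℕ, 0 ≤ mn a (i * α') := fun i => mn_nonneg ha0.le _
  have h1 : ∑ g ∈ Icc 1 G, ∑ j ∈ Ico 1 H, mn a (j * (g * α')) ≤
      ∑ i ∈ Icc 1 J, (i.divisors.card : ℝ) * mn a (i * α') := by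
    refine le_trans (le_of_eq ?_) (dbl_le G H (fun i => mn a (i * α')) hF0)
    refine sum_congr rfl fun g _ => sum_congr rfl fun j _ => ?_
    congr 1
    push_cast
    ring
  refine h1.trans ?_
  have hsq : (∑ i ∈ Icc 1 J, (i.divisors.card : ℝ) * mn a (i * α')) ^ 2 ≤
      (7 * LL N ^ 3 / Real.sqrt B * (H * Y)) ^ 2 := by
    calc (∑ i ∈ Icc 1 J, (i.divisors.card : ℝ) * mn a (i * α')) ^ 2
        ≤ (∑ i ∈ Icc 1 J, (i.divisors.card : ℝ) ^ 2) * ∑ i ∈ Icc 1 J, mn a (i * α') ^ 2 :=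
          sum_mul_sq_le_sq_mul_sq _ _ _
      _ ≤ (J * (1 + Real.log J) ^ 3) * (a * (40 * LL N * (H * Y / B))) := by
          apply mul_le_mul hdiv _ (sum_nonneg fun _ _ => by positivity) (by positivity)
          calc ∑ i ∈ Icc 1 J, mn a (i * α') ^ 2 ≤ ∑ i ∈ Icc 1 J, a * mn a (i * α') := by
                refine sum_le_sum fun i _ => ?_
                rw [sq]
                exact mul_le_mul_of_nonneg_right (mn_le _) (hF0 i)
            _ = a * ∑ i ∈ Icc 1 J, mn a (i * α') := by rw [mul_sum]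
            _ ≤ _ := by gcongr
      _ ≤ (H * Y / a * LL N ^ 3) * (a * (40 * LL N * (H * Y / B))) := by gcongr
      _ = 40 * LL N ^ 4 * (H * Y) ^ 2 / B := by
          field_simp
      _ ≤ 49 * LL N ^ 6 * (H * Y) ^ 2 / B := by
          have : LL N ^ 4 ≤ LL N ^ 6 := pow_le_pow_right₀ hL1 (by norm_num)
          gcongr
          norm_num
      _ = (7 * LL N ^ 3 / Real.sqrt B * (H * Y)) ^ 2 := by
          rw [show (7 * LL N ^ 3 / Real.sqrt B * (H * Y)) ^ 2 =
            (7 * LL N ^ 3) ^ 2 * ((H : ℝ) * Y) ^ 2 / Real.sqrt B ^ 2 by ring, Real.sq_sqrt hB0.le]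
          ring
  exact (pow_le_pow_iff_left₀ (sum_nonneg fun i _ => mul_nonneg (Nat.cast_nonneg _) (hF0 i)) (by positivity)
    two_ne_zero).mp hsq

end Pool.Agent.Helper51.EA
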