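import Pool.Agent.Helper33.EA.B8

/-!
# Project EA, block T1: one point of large complexity, every level

As `point_sharp_of` (B8), with the level `r`: `SN = S_1 + O(√N)` outside a small event, and the directional Azuma inequality with
`t = r (1 + 7 δ / 8) tg N`.
-/

set_option autoImplicit false

namespace Pool.Agent.Helper51.EA

open Finset Pool.Agent.Helper5.RM Pool.Agent.Helper5.RS MeasureTheory ProbabilityTheory

/-- T1 from B7 (`v_sharp`), B1 (`point_split`), B2 (`az_dir`). -/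
theorem point_sharpR_of
    (v_sharp : ∀ (κ ε : ℝ) (_ : 0 < κ) (_ : 0 < ε), ∃ N0 : ℕ, ∀ N : ℕ, N0 ≤ N → ∀ θ D : ℝ, Far N θ D →
      (N : ℝ) ^ κ ≤ D → D ≤ N → ∃ (B z k w I : ℕ) (η : ℝ), Par N D B z k w I η ∧
      pr (PP N) (fun T => (3 / Real.pi ^ 2 + ε) * N <
        (∑ l ∈ LI N B z 1, ‖XX N θ l T‖ ^ 2 + ‖∑ l ∈ LI N B z 1, XX N θ l T ^ 2‖) / 2) ≤ 2 / D ^ 4)
    (point_split : ∀ (N : ℕ) (θ D : ℝ) (_ : Far N θ D) (B z k w I : ℕ) (η : ℝ) (_ : Par N D B z k w I η),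
      pr (PP N) (fun T => 5 * Real.sqrt N < ‖SN N T θ - ∑ l ∈ LI N B z 1, (rf T l : ℂ) * XX N θ l T‖) ≤
        2 * (I : ℝ) ^ 2 * D ^ (-(5 / 2) : ℝ) + 1 / D ^ 4)
    (az_dir : ∀ (S : Finset ℕ) (v : ℕ → Finset ℕ → ℂ) (_ : ∀ p ∈ S, Pred p (v p)) (M : ℕ) (_ : 3 ≤ M) (t v0 : ℝ)
      (_ : 0 ≤ t) (_ : 0 < v0),
      pr S (fun T => t < ‖∑ p ∈ S, (sg T p : ℂ) * v p T‖ ∧
        (∑ p ∈ S, ‖v p T‖ ^ 2 + ‖∑ p ∈ S, v p T ^ 2‖) / 2 ≤ v0) ≤
        2 * M * Real.exp (-(t * Real.cos (Real.pi / M)) ^ 2 / (2 * v0)))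
    (κ δ r : ℝ) (hκ : 0 < κ) (hδ : 0 < δ) (hr0 : 0 < r) (hr1 : r ≤ 1) : ∃ N0 : ℕ, ∀ N : ℕ, N0 ≤ N →
    ∀ θ D : ℝ, Far N θ D → (N : ℝ) ^ κ ≤ D → D ≤ N →
    pr (PP N) (fun T => r * (1 + δ) * tg N < ‖SN N T θ‖) ≤
      D ^ (-(9 / 4) : ℝ) + (N : ℝ) ^ (-(r ^ 2 * (1 + δ))) := by
  obtain ⟨ε, M, hε, hM3, hcst⟩ := consts33 δ hδ
  obtain ⟨N1, hN1⟩ := v_sharp κ ε hκ hε
  obtain ⟨N2, hN2⟩ := tg_large33 (r * δ) (by positivity)
  obtain ⟨N3, hN3, hN3'⟩ := large33 κ (r ^ 2 * δ) hκ (by positivity) M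
  refine ⟨max N1 (max N2 N3), fun N hN θ D hF hκD hDN => ?_⟩
  have hNN1 : N1 ≤ N := le_trans (le_max_left _ _) hN
  have hNN2 : N2 ≤ N := le_trans (le_trans (le_max_left _ _) (le_max_right _ _)) hN
  have hNN3 : N3 ≤ N := le_trans (le_trans (le_max_right _ _) (le_max_right _ _)) hN
  obtain ⟨B, z, k, w, I, η, hP, hV⟩ := hN1 N hNN1 θ D hF hκD hDN
  have hS := point_split N θ D hF B z k w I η hP
  have h5 := hN2 N hNN2
  obtain ⟨hLL, hMN⟩ := hN3' N hNN3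
  have hN0 : 1 ≤ N := le_trans hN3 hNN3
  have hNr : (1 : ℝ) ≤ N := by exact_mod_cast hN0
  have hNpos : (0 : ℝ) < N := by linarith
  have hpi : 0 < Real.pi := Real.pi_pos
  have hD4 : 4 ≤ D := hP.hD4
  have hD0 : 0 < D := by linarith
  have htg0 : 0 ≤ tg N := Real.sqrt_nonneg _
  have htgsq : tg N ^ 2 = 6 / Real.pi ^ 2 * (N * Real.log N) := by
    unfold tg
    rw [Real.sq_sqrt]
    have := Real.log_nonneg hNr
    positivity
  classical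
  -- the martingale
  set v : ℕ → Finset ℕ → ℂ := fun p T => if p ∈ LI N B z 1 then XX N θ p T else 0 with hv
  have hsub : LI N B z 1 ⊆ PP N := fun l hl => (LI_one33 hl).2
  have hpred : ∀ p ∈ PP N, Pred p (v p) := by
    intro p hp T
    simp only [hv]
    by_cases hpL : p ∈ LI N B z 1
    · rw [if_pos hpL, if_pos hpL]
      have hpp := (LI_one33 hpL).1
      exact XX_pred N θ p p (by rw [hpp.primeFactors]; exact Finset.mem_singleton_self p) T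
    · rw [if_neg hpL, if_neg hpL]
  have hsum1 : ∀ T, ∑ p ∈ PP N, (sg T p : ℂ) * v p T = ∑ l ∈ LI N B z 1, (rf T l : ℂ) * XX N θ l T := by
    intro T
    rw [← Finset.sum_subset hsub]
    · refine Finset.sum_congr rfl fun l hl => ?_
      simp only [hv]
      rw [if_pos hl, rf_prime33 T (LI_one33 hl).1]
    · intro p _ hp
      simp only [hv]
      rw [if_neg hp, mul_zero]
  have hsum2 : ∀ T, ∑ p ∈ PP N, ‖v p T‖ ^ 2 = ∑ l ∈ LI N B z 1, ‖XX N θ l T‖ ^ 2 := by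
    intro T
    rw [← Finset.sum_subset hsub]
    · refine Finset.sum_congr rfl fun l hl => ?_
      simp only [hv]
      rw [if_pos hl]
    · intro p _ hp
      simp only [hv]
      rw [if_neg hp, norm_zero]
      norm_num
  have hsum3 : ∀ T, ∑ p ∈ PP N, v p T ^ 2 = ∑ l ∈ LI N B z 1, XX N θ l T ^ 2 := by
    intro T
    rw [← Finset.sum_subset hsub]
    · refine Finset.sum_congr rfl fun l hl => ?_
      simp only [hv]
      rw [if_pos hl]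
    · intro p _ hp
      simp only [hv]
      rw [if_neg hp]
      norm_num
  set v0 : ℝ := (3 / Real.pi ^ 2 + ε) * N with hv0
  have hv0pos : 0 < v0 := by positivity
  set t : ℝ := r * ((1 + 7 / 8 * δ) * tg N) with ht
  have ht0 : 0 ≤ t := by positivity
  have hAz := az_dir (PP N) v hpred M hM3 t v0 ht0 hv0pos
  simp only [hsum1, hsum2, hsum3] at hAz
  -- the exponent
  have hexp : Real.exp (-(t * Real.cos (Real.pi / M)) ^ 2 / (2 * v0)) ≤ (N : ℝ) ^ (-(r ^ 2 * (1 + 3 / 2 * δ))) := by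
    rw [Real.rpow_def_of_pos hNpos]
    apply Real.exp_le_exp.2
    rw [neg_div, mul_neg, neg_le_neg_iff, le_div_iff₀ (by positivity)]
    have hlog := Real.log_nonneg hNr
    calc Real.log N * (r ^ 2 * (1 + 3 / 2 * δ)) * (2 * v0)
        = r ^ 2 * (((1 + 3 / 2 * δ) * (2 * (3 / Real.pi ^ 2 + ε))) * (N * Real.log N)) := by
          rw [hv0]; ring
      _ ≤ r ^ 2 * ((((1 + 7 / 8 * δ) * Real.cos (Real.pi / M)) ^ 2 * (6 / Real.pi ^ 2)) *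
            (N * Real.log N)) :=
          mul_le_mul_of_nonneg_left (mul_le_mul_of_nonneg_right hcst (by positivity)) (by positivity)
      _ = r ^ 2 * (((1 + 7 / 8 * δ) * Real.cos (Real.pi / M)) ^ 2 *
            (6 / Real.pi ^ 2 * (N * Real.log N))) := by ring
      _ = r ^ 2 * (((1 + 7 / 8 * δ) * Real.cos (Real.pi / M)) ^ 2 * tg N ^ 2) := by rw [htgsq]
      _ = (t * Real.cos (Real.pi / M)) ^ 2 := by rw [ht]; ring
  have hAz2 : pr (PP N) (fun T => t < ‖∑ l ∈ LI N B z 1, (rf T l : ℂ) * XX N θ l T‖ ∧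
      (∑ l ∈ LI N B z 1, ‖XX N θ l T‖ ^ 2 + ‖∑ l ∈ LI N B z 1, XX N θ l T ^ 2‖) / 2 ≤ v0) ≤
      (N : ℝ) ^ (-(r ^ 2 * (1 + δ))) := by
    refine hAz.trans ?_
    calc 2 * (M : ℝ) * Real.exp (-(t * Real.cos (Real.pi / M)) ^ 2 / (2 * v0))
        ≤ (N : ℝ) ^ (r ^ 2 * δ / 2) * (N : ℝ) ^ (-(r ^ 2 * (1 + 3 / 2 * δ))) :=
          mul_le_mul hMN hexp (Real.exp_nonneg _) (by positivity)
      _ = (N : ℝ) ^ (-(r ^ 2 * (1 + δ))) := by
          rw [← Real.rpow_add hNpos]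
          congr 1
          ring
  -- union bound
  have hun : pr (PP N) (fun T => r * (1 + δ) * tg N < ‖SN N T θ‖) ≤
      pr (PP N) (fun T => 5 * Real.sqrt N < ‖SN N T θ - ∑ l ∈ LI N B z 1, (rf T l : ℂ) * XX N θ l T‖) +
      (pr (PP N) (fun T => v0 <
        (∑ l ∈ LI N B z 1, ‖XX N θ l T‖ ^ 2 + ‖∑ l ∈ LI N B z 1, XX N θ l T ^ 2‖) / 2) +
      pr (PP N) (fun T => t < ‖∑ l ∈ LI N B z 1, (rf T l : ℂ) * XX N θ l T‖ ∧
        (∑ l ∈ LI N B z 1, ‖XX N θ l T‖ ^ 2 + ‖∑ l ∈ LI N B z 1, XX N θ l T ^ 2‖) / 2 ≤ v0)) := by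
    refine (pr_le_add (Q := fun T => 5 * Real.sqrt N < ‖SN N T θ - ∑ l ∈ LI N B z 1, (rf T l : ℂ) * XX N θ l T‖)
      (R := fun T => v0 < (∑ l ∈ LI N B z 1, ‖XX N θ l T‖ ^ 2 + ‖∑ l ∈ LI N B z 1, XX N θ l T ^ 2‖) / 2 ∨
        (t < ‖∑ l ∈ LI N B z 1, (rf T l : ℂ) * XX N θ l T‖ ∧
        (∑ l ∈ LI N B z 1, ‖XX N θ l T‖ ^ 2 + ‖∑ l ∈ LI N B z 1, XX N θ l T ^ 2‖) / 2 ≤ v0)) ?_).trans ?_
    · intro T _ hT
      by_cases h1 : 5 * Real.sqrt N < ‖SN N T θ - ∑ l ∈ LI N B z 1, (rf T l : ℂ) * XX N θ l T‖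
      · exact Or.inl h1
      · right
        rw [not_lt] at h1
        by_cases h2 : v0 < (∑ l ∈ LI N B z 1, ‖XX N θ l T‖ ^ 2 + ‖∑ l ∈ LI N B z 1, XX N θ l T ^ 2‖) / 2
        · exact Or.inl h2
        · right
          rw [not_lt] at h2
          refine ⟨?_, h2⟩
          have h3 : ‖SN N T θ‖ ≤ ‖SN N T θ - ∑ l ∈ LI N B z 1, (rf T l : ℂ) * XX N θ l T‖ +
              ‖∑ l ∈ LI N B z 1, (rf T l : ℂ) * XX N θ l T‖ := by
            have := norm_add_le (SN N T θ - ∑ l ∈ LI N B z 1, (rf T l : ℂ) * XX N θ l T)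
              (∑ l ∈ LI N B z 1, (rf T l : ℂ) * XX N θ l T)
            rwa [sub_add_cancel] at this
          have h4 : r * (1 + δ) * tg N = r * ((1 + 7 / 8 * δ) * tg N) + r * δ / 8 * tg N := by ring
          rw [ht]
          linarith
    · gcongr
      exact pr_or _ _ _
  -- the numbers
  have hI2 : 2 * (I : ℝ) ^ 2 * D ^ (-(5 / 2) : ℝ) ≤ 1 / 2 * D ^ (-(9 / 4) : ℝ) := by
    have h1 : (I : ℝ) ^ 2 ≤ (2 * LL N) ^ 2 := pow_le_pow_left₀ (Nat.cast_nonneg I) hP.hIL 2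
    have h2 : 16 * LL N ^ 2 ≤ D ^ (1 / 4 : ℝ) := by
      refine hLL.trans ?_
      have h3 : (N : ℝ) ^ (κ / 4) = ((N : ℝ) ^ κ) ^ (1 / 4 : ℝ) := by
        rw [← Real.rpow_mul hNpos.le]
        congr 1
        ring
      rw [h3]
      exact Real.rpow_le_rpow (by positivity) hκD (by norm_num)
    have h4 : D ^ (-(9 / 4) : ℝ) = D ^ (1 / 4 : ℝ) * D ^ (-(5 / 2) : ℝ) := by
      rw [← Real.rpow_add hD0]
      norm_num
    rw [h4]
    have h5' : 0 < D ^ (-(5 / 2) : ℝ) := Real.rpow_pos_of_pos hD0 _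
    have h6 : 2 * (I : ℝ) ^ 2 ≤ 1 / 2 * D ^ (1 / 4 : ℝ) := by nlinarith
    calc 2 * (I : ℝ) ^ 2 * D ^ (-(5 / 2) : ℝ) ≤ (1 / 2 * D ^ (1 / 4 : ℝ)) * D ^ (-(5 / 2) : ℝ) :=
          mul_le_mul_of_nonneg_right h6 h5'.le
      _ = _ := by ring
  have hD3 : 1 / D ^ 4 + 2 / D ^ 4 ≤ 1 / 2 * D ^ (-(9 / 4) : ℝ) := by
    have h1 : (6 : ℝ) ≤ D ^ (7 / 4 : ℝ) := by
      have h2 : (4 : ℝ) ^ (7 / 4 : ℝ) ≤ D ^ (7 / 4 : ℝ) := Real.rpow_le_rpow (by norm_num) hD4 (by norm_num)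
      refine le_trans ?_ h2
      have h3 : (4 : ℝ) ^ (3 / 2 : ℝ) ≤ (4 : ℝ) ^ (7 / 4 : ℝ) :=
        Real.rpow_le_rpow_of_exponent_le (by norm_num) (by norm_num)
      refine le_trans ?_ h3
      have h4 : (4 : ℝ) ^ (3 / 2 : ℝ) = 8 := by
        rw [show (4 : ℝ) = 2 ^ (2 : ℝ) by norm_num, ← Real.rpow_mul (by norm_num)]
        norm_num
      rw [h4]; norm_num
    have h2 : D ^ (-(9 / 4) : ℝ) = D ^ (7 / 4 : ℝ) / D ^ 4 := by
      rw [← Real.rpow_natCast D 4, ← Real.rpow_sub hD0]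
      norm_num
    rw [h2]
    have h3 : 0 < D ^ 4 := by positivity
    rw [← add_div, ← mul_div_assoc]
    apply div_le_div_of_nonneg_right _ h3.le
    linarith
  calc pr (PP N) (fun T => r * (1 + δ) * tg N < ‖SN N T θ‖)
      ≤ (2 * (I : ℝ) ^ 2 * D ^ (-(5 / 2) : ℝ) + 1 / D ^ 4) +
          (2 / D ^ 4 + (N : ℝ) ^ (-(r ^ 2 * (1 + δ)))) :=
        hun.trans (add_le_add hS (add_le_add hV hAz2))
    _ ≤ _ := by linarith

end Pool.Agent.Helper51.EA
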