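import Pool.Agent.Helper11.EA3.Defs3

/-!
# Project EA, part 3, block V2: `psi_two_of`, the `L²` bound of the two point `Psi` and the diagonal

Hypotheses: the exact statements of the blocks V2a (`psi_small`) and V2b (`psi_large`).
-/

set_option autoImplicit false

namespace Pool.Agent.Helper33.EA

open Finset Pool.Agent.Helper5.RM Pool.Agent.Helper5.RS Pool.Agent.Helper51.EA

private lemma one_le_LL (N : ℕ) : 1 ≤ LL N := by
  unfold LL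
  have : 0 ≤ Real.log N := Real.log_natCast_nonneg N
  linarith

private lemma c2_symm (Lam : Finset ℕ) (lo hi : ℕ → ℕ) (α α' : ℝ) (m n : ℕ) :
    c2 Lam lo hi α α' m n = c2 Lam lo hi α' α n m := by
  unfold c2
  rw [max_comm, min_comm]
  refine sum_congr rfl fun l _ => ?_
  rw [add_comm]

private lemma psi_cs (Nn : Finset ℕ) (Y : ℕ) (c : ℕ → ℕ → ℂ) (hN : ∀ n ∈ Nn, 1 ≤ n ∧ n ≤ Y) (a b : ℕ)
    (ha : 1 ≤ a) :
    ‖Psi Nn Y c a b‖ ^ 2 ≤ (Y : ℝ) / (max a b : ℕ) *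
      ∑ g ∈ Icc 1 (Y / max a b), ‖c (g * a) (g * b)‖ ^ 2 := by
  have hM : 1 ≤ max a b := le_max_of_le_left ha
  unfold Psi
  set F := (Icc 1 Y).filter (fun g => g * a ∈ Nn ∧ g * b ∈ Nn) with hF
  have hsub : F ⊆ Icc 1 (Y / max a b) := by
    intro g hg
    rw [hF, mem_filter, mem_Icc] at hg
    rw [mem_Icc]
    refine ⟨hg.1.1, ?_⟩
    rw [Nat.le_div_iff_mul_le (by omega)]
    rcases le_total a b with h | h
    · rw [max_eq_right h]; exact (hN _ hg.2.2).2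
    · rw [max_eq_left h]; exact (hN _ hg.2.1).2
  have hcard : (F.card : ℝ) ≤ (Y : ℝ) / (max a b : ℕ) := by
    calc (F.card : ℝ) ≤ ((Icc 1 (Y / max a b)).card : ℝ) := by exact_mod_cast card_le_card hsub
      _ = ((Y / max a b : ℕ) : ℝ) := by rw [Nat.card_Icc]; simp
      _ ≤ (Y : ℝ) / (max a b : ℕ) := Nat.cast_div_le
  calc ‖∑ g ∈ F, c (g * a) (g * b)‖ ^ 2 ≤ (∑ g ∈ F, ‖c (g * a) (g * b)‖) ^ 2 := by
        gcongr
        exact norm_sum_le _ _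
    _ ≤ F.card * ∑ g ∈ F, ‖c (g * a) (g * b)‖ ^ 2 := sq_sum_le_card_mul_sum_sq
    _ ≤ (Y : ℝ) / (max a b : ℕ) * ∑ g ∈ Icc 1 (Y / max a b), ‖c (g * a) (g * b)‖ ^ 2 := by
        apply mul_le_mul hcard _ (sum_nonneg fun _ _ => by positivity) (by positivity)
        exact sum_le_sum_of_subset_of_nonneg hsub fun _ _ _ => by positivity

private lemma harm (N Y : ℕ) (hY : Y ≤ N) : ∑ a ∈ Icc 1 Y, 1 / (a : ℝ) ≤ LL N := by
  have h1 : ∑ a ∈ Icc 1 Y, 1 / (a : ℝ) = (harmonic Y : ℝ) := by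
    rw [harmonic_eq_sum_Icc]
    push_cast
    refine sum_congr rfl fun a _ => ?_
    rw [one_div]
  rw [h1]
  refine (harmonic_le_one_add_log Y).trans ?_
  unfold LL
  rcases Nat.eq_zero_or_pos Y with h | h
  · subst h
    have : 0 ≤ Real.log N := Real.log_natCast_nonneg N
    simpa using this
  · have : Real.log Y ≤ Real.log N := Real.log_le_log (by exact_mod_cast h) (by exact_mod_cast hY)
    linarith

private lemma max_sum (N Y : ℕ) (hY : Y ≤ N) :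
    ∑ a ∈ Icc 1 Y, ∑ b ∈ Icc 1 Y, 1 / ((max a b : ℕ) : ℝ) ^ 2 ≤ 2 * LL N := by
  have h1 : ∀ a ∈ Icc 1 Y, ∑ b ∈ Icc 1 Y, (if b ≤ a then 1 / (a : ℝ) ^ 2 else 0) = 1 / (a : ℝ) := by
    intro a ha
    rw [mem_Icc] at ha
    have ha0 : (a : ℝ) ≠ 0 := by
      have : a ≠ 0 := by omega
      exact_mod_cast this
    rw [← sum_filter]
    have h2 : (Icc 1 Y).filter (fun b => b ≤ a) = Icc 1 a := by
      ext b
      rw [mem_filter, mem_Icc, mem_Icc]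
      omega
    rw [h2, sum_const, Nat.card_Icc, nsmul_eq_mul]
    simp only [add_tsub_cancel_right]
    field_simp
  have h2 : ∀ a b : ℕ, 1 / ((max a b : ℕ) : ℝ) ^ 2 ≤
      (if b ≤ a then 1 / (a : ℝ) ^ 2 else 0) + (if a ≤ b then 1 / (b : ℝ) ^ 2 else 0) := by
    intro a b
    rcases le_total a b with h | h
    · rw [max_eq_right h, if_pos h]
      have : (0 : ℝ) ≤ (if b ≤ a then 1 / (a : ℝ) ^ 2 else 0) := by split_ifs <;> positivity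
      linarith
    · rw [max_eq_left h, if_pos h]
      have : (0 : ℝ) ≤ (if a ≤ b then 1 / (b : ℝ) ^ 2 else 0) := by split_ifs <;> positivity
      linarith
  calc ∑ a ∈ Icc 1 Y, ∑ b ∈ Icc 1 Y, 1 / ((max a b : ℕ) : ℝ) ^ 2
      ≤ ∑ a ∈ Icc 1 Y, ∑ b ∈ Icc 1 Y, ((if b ≤ a then 1 / (a : ℝ) ^ 2 else 0) +
          (if a ≤ b then 1 / (b : ℝ) ^ 2 else 0)) :=
        sum_le_sum fun a _ => sum_le_sum fun b _ => h2 a b
    _ = ∑ a ∈ Icc 1 Y, ∑ b ∈ Icc 1 Y, (if b ≤ a then 1 / (a : ℝ) ^ 2 else 0) +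
        ∑ a ∈ Icc 1 Y, ∑ b ∈ Icc 1 Y, (if a ≤ b then 1 / (b : ℝ) ^ 2 else 0) := by
        rw [← sum_add_distrib]
        refine sum_congr rfl fun a _ => ?_
        rw [sum_add_distrib]
    _ = ∑ a ∈ Icc 1 Y, 1 / (a : ℝ) + ∑ a ∈ Icc 1 Y, 1 / (a : ℝ) := by
        have e1 : ∑ a ∈ Icc 1 Y, ∑ b ∈ Icc 1 Y, (if a ≤ b then 1 / (b : ℝ) ^ 2 else 0) =
            ∑ b ∈ Icc 1 Y, ∑ a ∈ Icc 1 Y, (if a ≤ b then 1 / (b : ℝ) ^ 2 else 0) := sum_comm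
        rw [e1, sum_congr rfl h1]
    _ ≤ 2 * LL N := by
        have := harm N Y hY
        linarith

theorem psi_two_of
    (hS : ∃ C : ℝ, 1 ≤ C ∧ ∀ (N : ℕ) (α α' D : ℝ) (A0 B H : ℕ) (Lam : Finset ℕ) (lo hi : ℕ → ℕ),
      D ≤ N → Far2 N A0 α α' D → 128 * LL N ≤ B → B ≤ A0 → (A0 : ℝ) * B ≤ D → B ≤ H → B * A0 * H ≤ N →
      (∀ l ∈ Lam, H ≤ l ∧ l < 2 * H) → ∀ a b : ℕ, 1 ≤ a → a ≤ A0 → 1 ≤ b → b ≤ A0 →
      ∑ g ∈ Icc 1 (N / H / max a b), ‖c2 Lam lo hi α α' (g * a) (g * b)‖ ^ 2 ≤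
        C * LL N ^ 3 / B * ((H : ℝ) ^ 2 * ((N / H : ℕ) / (max a b : ℕ))))
    (hL : ∃ C : ℝ, 1 ≤ C ∧ ∀ (N : ℕ) (α α' D : ℝ) (B H : ℕ) (Lam : Finset ℕ) (lo hi : ℕ → ℕ),
      D ≤ N → Far N α' D → 128 * LL N ≤ B → (B : ℝ) ≤ D → B ≤ H → B * H ≤ N →
      (∀ l ∈ Lam, H ≤ l ∧ l < 2 * H) → ∀ a : ℕ, B ≤ a → a ≤ N / H →
      ∑ g ∈ Icc 1 (N / H / a), ∑ b ∈ Icc 1 a, ‖c2 Lam lo hi α α' (g * a) (g * b)‖ ^ 2 ≤
        C * LL N ^ 6 / Real.sqrt B * ((H : ℝ) ^ 2 * (N / H : ℕ))) :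
    ∃ C : ℝ, 1 ≤ C ∧ ∀ (N : ℕ) (α α' D : ℝ) (A0 B H : ℕ) (Lam Nn : Finset ℕ) (lo hi : ℕ → ℕ),
    D ≤ N → Far N α D → Far N α' D → Far2 N A0 α α' D → 128 * LL N ≤ B → B ≤ A0 → (A0 : ℝ) * B ≤ D → B ≤ H →
    B * A0 * H ≤ N → (∀ l ∈ Lam, H ≤ l ∧ l < 2 * H) → (∀ n ∈ Nn, 1 ≤ n ∧ n ≤ N / H) →
    ∑ q ∈ cp (N / H), ‖Psi Nn (N / H) (c2 Lam lo hi α α') q.1 q.2‖ ^ 2 ≤
        ((H : ℝ) * (N / H : ℕ)) ^ 2 * (C * LL N ^ 8 / Real.sqrt B) ∧
      ‖∑ n ∈ Nn, c2 Lam lo hi α α' n n‖ ^ 2 ≤ ((H : ℝ) * (N / H : ℕ)) ^ 2 * (C * LL N ^ 8 / Real.sqrt B) := by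
  obtain ⟨C₁, hC₁, hS⟩ := hS
  obtain ⟨C₂, hC₂, hL⟩ := hL
  refine ⟨2 * C₁ + 2 * C₂, by linarith, ?_⟩
  intro N α α' D A0 B H Lam Nn lo hi hDN hF hF' hF2 hBL hBA hAD hBH hBN hLam hNn
  have hLL := one_le_LL N
  have hB1r : (1 : ℝ) ≤ B := by linarith
  have hB1 : 1 ≤ B := by exact_mod_cast hB1r
  have hA1 : 1 ≤ A0 := hB1.trans hBA
  have hH1 : 1 ≤ H := hB1.trans hBH
  have hA1r : (1 : ℝ) ≤ A0 := by exact_mod_cast hA1
  have hBD : (B : ℝ) ≤ D := by nlinarith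
  have hBHN : B * H ≤ N := le_trans (by
    calc B * H = B * 1 * H := by ring
      _ ≤ B * A0 * H := by gcongr) hBN
  set Y := N / H with hY
  have hYN : Y ≤ N := Nat.div_le_self _ _
  have hsB : 1 ≤ Real.sqrt B := Real.one_le_sqrt.mpr hB1r
  have hsB0 : 0 < Real.sqrt B := by linarith
  have hsBB : Real.sqrt B ≤ B := by
    have := Real.mul_self_sqrt (show (0 : ℝ) ≤ B by linarith)
    nlinarith
  have hY0 : (0 : ℝ) ≤ Y := Nat.cast_nonneg _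
  have hH0 : (0 : ℝ) ≤ H := Nat.cast_nonneg _
  have hLp : ∀ i : ℕ, i ≤ 8 → LL N ^ i ≤ LL N ^ 8 := fun i hi => pow_le_pow_right₀ hLL hi
  have hS' := hS N α α' D A0 B H Lam lo hi hDN hF2 hBL hBA hAD hBH hBN hLam
  have hL1 := hL N α α' D B H Lam lo hi hDN hF' hBL hBD hBH hBHN hLam
  have hL2 := hL N α' α D B H Lam lo hi hDN hF hBL hBD hBH hBHN hLam
  rw [← hY] at hS' hL1 hL2
  constructor
  · -- the three majorants
    set T : ℕ → ℕ → ℝ := fun a b => ‖c2 Lam lo hi α α' a b‖ ^ 2 with hT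
    have hT0 : ∀ a b, 0 ≤ T a b := fun a b => by rw [hT]; positivity
    set f1 : ℕ → ℕ → ℝ := fun a b =>
      C₁ * LL N ^ 3 / B * ((H : ℝ) * Y) ^ 2 * (1 / ((max a b : ℕ) : ℝ) ^ 2) with hf1
    set f2 : ℕ → ℕ → ℝ := fun a b => if b ≤ a ∧ A0 < a then
      (Y : ℝ) / a * ∑ g ∈ Icc 1 (Y / a), T (g * a) (g * b) else 0 with hf2
    set f3 : ℕ → ℕ → ℝ := fun a b => if a ≤ b ∧ A0 < b then
      (Y : ℝ) / b * ∑ g ∈ Icc 1 (Y / b), T (g * a) (g * b) else 0 with hf3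
    have hf1n : ∀ a b, 0 ≤ f1 a b := fun a b => by rw [hf1]; positivity
    have hf2n : ∀ a b, 0 ≤ f2 a b := by
      intro a b
      rw [hf2]
      dsimp only
      split_ifs
      · exact mul_nonneg (by positivity) (sum_nonneg fun _ _ => hT0 _ _)
      · exact le_rfl
    have hf3n : ∀ a b, 0 ≤ f3 a b := by
      intro a b
      rw [hf3]
      dsimp only
      split_ifs
      · exact mul_nonneg (by positivity) (sum_nonneg fun _ _ => hT0 _ _)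
      · exact le_rfl
    have hpt : ∀ q ∈ cp Y, ‖Psi Nn Y (c2 Lam lo hi α α') q.1 q.2‖ ^ 2 ≤
        f1 q.1 q.2 + (f2 q.1 q.2 + f3 q.1 q.2) := by
      rintro ⟨a, b⟩ hq
      unfold cp at hq
      rw [mem_filter, mem_product, mem_Icc, mem_Icc] at hq
      obtain ⟨⟨⟨ha1, ha2⟩, hb1, hb2⟩, -⟩ := hq
      dsimp only at ha1 ha2 hb1 hb2 ⊢
      have hcs := psi_cs Nn Y (c2 Lam lo hi α α') hNn a b ha1
      refine hcs.trans ?_
      by_cases hM : max a b ≤ A0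
      · have h1 := hS' a b ha1 (le_trans (le_max_left _ _) hM) hb1 (le_trans (le_max_right _ _) hM)
        have h2 : (Y : ℝ) / (max a b : ℕ) * ∑ g ∈ Icc 1 (Y / max a b), ‖c2 Lam lo hi α α' (g * a) (g * b)‖ ^ 2 ≤
            f1 a b := by
          calc (Y : ℝ) / (max a b : ℕ) * ∑ g ∈ Icc 1 (Y / max a b), ‖c2 Lam lo hi α α' (g * a) (g * b)‖ ^ 2
              ≤ (Y : ℝ) / (max a b : ℕ) *
                (C₁ * LL N ^ 3 / B * ((H : ℝ) ^ 2 * ((Y : ℝ) / (max a b : ℕ)))) := by gcongr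
            _ = f1 a b := by
                rw [hf1]
                have hm0 : ((max a b : ℕ) : ℝ) ≠ 0 := by
                  have : max a b ≠ 0 := by
                    have := le_max_left a b
                    omega
                  exact_mod_cast this
                have hB0 : (B : ℝ) ≠ 0 := by linarith
                field_simp
        linarith [hf2n a b, hf3n a b]
      · rw [not_le] at hM
        rcases le_total a b with h | h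
        · rw [max_eq_right h] at hM ⊢
          have h2 : f3 a b = (Y : ℝ) / b * ∑ g ∈ Icc 1 (Y / b), T (g * a) (g * b) := by
            rw [hf3]
            exact if_pos ⟨h, hM⟩
          linarith [hf1n a b, hf2n a b]
        · rw [max_eq_left h] at hM ⊢
          have h2 : f2 a b = (Y : ℝ) / a * ∑ g ∈ Icc 1 (Y / a), T (g * a) (g * b) := by
            rw [hf2]
            exact if_pos ⟨h, hM⟩
          linarith [hf1n a b, hf3n a b]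
    have hsum1 : ∑ a ∈ Icc 1 Y, ∑ b ∈ Icc 1 Y, f1 a b ≤
        C₁ * LL N ^ 3 / B * ((H : ℝ) * Y) ^ 2 * (2 * LL N) := by
      have h1 : ∑ a ∈ Icc 1 Y, ∑ b ∈ Icc 1 Y, f1 a b = C₁ * LL N ^ 3 / B * ((H : ℝ) * Y) ^ 2 *
          ∑ a ∈ Icc 1 Y, ∑ b ∈ Icc 1 Y, 1 / ((max a b : ℕ) : ℝ) ^ 2 := by
        rw [mul_sum]
        refine sum_congr rfl fun a _ => ?_
        rw [mul_sum]
      rw [h1]
      gcongr
      exact max_sum N Y hYN
    -- the case `b ≤ a`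
    have key : ∀ (U : ℕ → ℕ → ℝ), (∀ a b, 0 ≤ U a b) →
        (∀ a : ℕ, B ≤ a → a ≤ Y → ∑ g ∈ Icc 1 (Y / a), ∑ b ∈ Icc 1 a, U (g * a) (g * b) ≤
          C₂ * LL N ^ 6 / Real.sqrt B * ((H : ℝ) ^ 2 * (Y : ℕ))) →
        ∑ a ∈ Icc 1 Y, ∑ b ∈ Icc 1 Y, (if b ≤ a ∧ A0 < a then
          (Y : ℝ) / a * ∑ g ∈ Icc 1 (Y / a), U (g * a) (g * b) else 0) ≤
          C₂ * LL N ^ 6 / Real.sqrt B * ((H : ℝ) * Y) ^ 2 * LL N := by
      intro U hU0 hU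
      have h1 : ∀ a ∈ Icc 1 Y, ∑ b ∈ Icc 1 Y, (if b ≤ a ∧ A0 < a then
          (Y : ℝ) / a * ∑ g ∈ Icc 1 (Y / a), U (g * a) (g * b) else 0) ≤
          C₂ * LL N ^ 6 / Real.sqrt B * ((H : ℝ) * Y) ^ 2 * (1 / (a : ℝ)) := by
        intro a ha
        rw [mem_Icc] at ha
        have hapos : (0 : ℝ) < a := by exact_mod_cast (show 0 < a by omega)
        by_cases hA : A0 < a
        · have h2 : ∑ b ∈ Icc 1 Y, (if b ≤ a ∧ A0 < a then
              (Y : ℝ) / a * ∑ g ∈ Icc 1 (Y / a), U (g * a) (g * b) else 0) =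
              (Y : ℝ) / a * ∑ g ∈ Icc 1 (Y / a), ∑ b ∈ Icc 1 a, U (g * a) (g * b) := by
            rw [← sum_filter]
            have h3 : (Icc 1 Y).filter (fun b => b ≤ a ∧ A0 < a) = Icc 1 a := by
              ext b
              rw [mem_filter, mem_Icc, mem_Icc]
              constructor
              · rintro ⟨⟨h4, -⟩, h5, -⟩
                exact ⟨h4, h5⟩
              · rintro ⟨h4, h5⟩
                exact ⟨⟨h4, h5.trans ha.2⟩, h5, hA⟩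
            rw [h3, ← mul_sum, sum_comm]
          rw [h2]
          calc (Y : ℝ) / a * ∑ g ∈ Icc 1 (Y / a), ∑ b ∈ Icc 1 a, U (g * a) (g * b)
              ≤ (Y : ℝ) / a * (C₂ * LL N ^ 6 / Real.sqrt B * ((H : ℝ) ^ 2 * (Y : ℕ))) := by
                gcongr
                exact hU a (by omega) ha.2
            _ = C₂ * LL N ^ 6 / Real.sqrt B * ((H : ℝ) * Y) ^ 2 * (1 / (a : ℝ)) := by
                field_simp
        · have h2 : ∑ b ∈ Icc 1 Y, (if b ≤ a ∧ A0 < a then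
              (Y : ℝ) / a * ∑ g ∈ Icc 1 (Y / a), U (g * a) (g * b) else 0) = 0 := by
            apply sum_eq_zero
            intro b _
            rw [if_neg]
            exact fun h => hA h.2
          rw [h2]
          positivity
      calc ∑ a ∈ Icc 1 Y, ∑ b ∈ Icc 1 Y, (if b ≤ a ∧ A0 < a then
          (Y : ℝ) / a * ∑ g ∈ Icc 1 (Y / a), U (g * a) (g * b) else 0)
          ≤ ∑ a ∈ Icc 1 Y, C₂ * LL N ^ 6 / Real.sqrt B * ((H : ℝ) * Y) ^ 2 * (1 / (a : ℝ)) :=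
            sum_le_sum h1
        _ = C₂ * LL N ^ 6 / Real.sqrt B * ((H : ℝ) * Y) ^ 2 * ∑ a ∈ Icc 1 Y, 1 / (a : ℝ) := by
            rw [mul_sum]
        _ ≤ C₂ * LL N ^ 6 / Real.sqrt B * ((H : ℝ) * Y) ^ 2 * LL N := by
            gcongr
            exact harm N Y hYN
    have hsum2 : ∑ a ∈ Icc 1 Y, ∑ b ∈ Icc 1 Y, f2 a b ≤
        C₂ * LL N ^ 6 / Real.sqrt B * ((H : ℝ) * Y) ^ 2 * LL N := by
      refine key T hT0 fun a ha1 ha2 => ?_
      exact hL1 a ha1 ha2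
    have hsum3 : ∑ a ∈ Icc 1 Y, ∑ b ∈ Icc 1 Y, f3 a b ≤
        C₂ * LL N ^ 6 / Real.sqrt B * ((H : ℝ) * Y) ^ 2 * LL N := by
      rw [sum_comm]
      refine key (fun a b => T b a) (fun a b => hT0 b a) fun a ha1 ha2 => ?_
      refine le_trans (le_of_eq ?_) (hL2 a ha1 ha2)
      refine sum_congr rfl fun g _ => sum_congr rfl fun b _ => ?_
      rw [hT]
      dsimp only
      rw [c2_symm]
    calc ∑ q ∈ cp Y, ‖Psi Nn Y (c2 Lam lo hi α α') q.1 q.2‖ ^ 2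
        ≤ ∑ q ∈ cp Y, (f1 q.1 q.2 + (f2 q.1 q.2 + f3 q.1 q.2)) := sum_le_sum hpt
      _ ≤ ∑ q ∈ Icc 1 Y ×ˢ Icc 1 Y, (f1 q.1 q.2 + (f2 q.1 q.2 + f3 q.1 q.2)) := by
          apply sum_le_sum_of_subset_of_nonneg
          · unfold cp
            exact filter_subset _ _
          · intro q _ _
            linarith [hf1n q.1 q.2, hf2n q.1 q.2, hf3n q.1 q.2]
      _ = ∑ a ∈ Icc 1 Y, ∑ b ∈ Icc 1 Y, f1 a b + (∑ a ∈ Icc 1 Y, ∑ b ∈ Icc 1 Y, f2 a b +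
          ∑ a ∈ Icc 1 Y, ∑ b ∈ Icc 1 Y, f3 a b) := by
          rw [sum_product, ← sum_add_distrib, ← sum_add_distrib]
          refine sum_congr rfl fun a _ => ?_
          rw [← sum_add_distrib, ← sum_add_distrib]
      _ ≤ C₁ * LL N ^ 3 / B * ((H : ℝ) * Y) ^ 2 * (2 * LL N) +
          (C₂ * LL N ^ 6 / Real.sqrt B * ((H : ℝ) * Y) ^ 2 * LL N +
            C₂ * LL N ^ 6 / Real.sqrt B * ((H : ℝ) * Y) ^ 2 * LL N) := by
          linarith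
      _ = ((H : ℝ) * Y) ^ 2 * (2 * C₁ * LL N ^ 4 / B + 2 * C₂ * LL N ^ 7 / Real.sqrt B) := by ring
      _ ≤ ((H : ℝ) * Y) ^ 2 * (2 * C₁ * LL N ^ 8 / Real.sqrt B + 2 * C₂ * LL N ^ 8 / Real.sqrt B) := by
          have e1 := hLp 4 (by norm_num)
          have e2 := hLp 7 (by norm_num)
          gcongr
      _ = ((H : ℝ) * Y) ^ 2 * ((2 * C₁ + 2 * C₂) * LL N ^ 8 / Real.sqrt B) := by ring
  · have h1 := hS' 1 1 le_rfl hA1 le_rfl hA1
    simp only [max_self, Nat.div_one, mul_one, Nat.cast_one, div_one] at h1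
    have hsub : Nn ⊆ Icc 1 Y := fun n hn => mem_Icc.mpr (hNn n hn)
    have hcard : (Nn.card : ℝ) ≤ Y := by
      have h2 := card_le_card hsub
      rw [Nat.card_Icc, Nat.add_sub_cancel] at h2
      exact_mod_cast h2
    calc ‖∑ n ∈ Nn, c2 Lam lo hi α α' n n‖ ^ 2 ≤ (∑ n ∈ Nn, ‖c2 Lam lo hi α α' n n‖) ^ 2 := by
          gcongr
          exact norm_sum_le _ _
      _ ≤ Nn.card * ∑ n ∈ Nn, ‖c2 Lam lo hi α α' n n‖ ^ 2 := sq_sum_le_card_mul_sum_sq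
      _ ≤ Y * ∑ n ∈ Icc 1 Y, ‖c2 Lam lo hi α α' n n‖ ^ 2 := by
          apply mul_le_mul hcard _ (sum_nonneg fun _ _ => by positivity) hY0
          exact sum_le_sum_of_subset_of_nonneg hsub fun _ _ _ => by positivity
      _ ≤ Y * (C₁ * LL N ^ 3 / B * ((H : ℝ) ^ 2 * Y)) := by gcongr
      _ = ((H : ℝ) * Y) ^ 2 * (C₁ * LL N ^ 3 / B) := by ring
      _ ≤ ((H : ℝ) * Y) ^ 2 * ((2 * C₁ + 2 * C₂) * LL N ^ 8 / Real.sqrt B) := by
          have e1 := hLp 3 (by norm_num)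
          gcongr
          linarith

end Pool.Agent.Helper33.EA
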